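import Pool.Agent.H79.HS.NBAux

/-!
# MP_eb1332_ag, module BR: absence of good Hecke data in a branch direction
-/

namespace Pool.Agent.H79.HS

open Matrix Pool.Agent.H12.HS

universe u

section Core
variable {Ω : Type u} [Field Ω] [CharZero Ω] {n : Type} [Fintype n] [DecidableEq n]

theorem killBR (hbru : T_BRU.{u}) (a : Fin 5 → Ω) (T : Matrix n n (P2 Ω)) (ha0 : a 0 = 0)
    (ha1 : a 1 ≠ 0) (hT : T * T = quart a • (1 : Matrix n n (P2 Ω))) (h0 : T.map ev0 = 0)
    (hn : 4 ≤ Fintype.card n)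
    (hno : ∀ D : HD (quart a) T, ev0 D.s = 0 → D.D1.map ev0 = 0) (u : n → PowerSeries Ω)
    (hu : (T.map (cc Ω)) *ᵥ u = 0) :
    T.map ly *ᵥ (fun i => PowerSeries.constantCoeff (u i)) = 0 := by
  by_cases hp : ∃ i, PowerSeries.constantCoeff (u i) ≠ 0
  · obtain ⟨φ, D, hφp, -, hl, hs, ha, hDu, hDφ⟩ := hbru Ω n a T ha0 ha1 hT hn u hu hp
    have h1 := bad_datum hT h0 D hl 0 (by rw [ha, mul_zero]) (by
      obtain ⟨i, hi⟩ := hφp
      refine ⟨i, ?_⟩
      rw [hDφ, Function.comp_apply, ev0_C]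
      exact hi) (hno D (by rw [hs]; exact ev0_px))
    have h2 : (fun j => ev0 (D.u j)) = fun i => PowerSeries.constantCoeff (u i) := by
      funext j
      rw [hDu, Function.comp_apply, ev0_C]
    rw [h2] at h1
    exact h1
  · push Not at hp
    have : (fun i => PowerSeries.constantCoeff (u i)) = (0 : n → Ω) := funext hp
    rw [this, Matrix.mulVec_zero]

/-- `v` is the value at zero of a vector of the kernel of `N` -/
def InX (N : Matrix n n (PowerSeries Ω)) (v : n → Ω) : Prop :=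
  ∃ u : n → PowerSeries Ω, N *ᵥ u = 0 ∧ ∀ i, PowerSeries.constantCoeff (u i) = v i

omit [CharZero Ω] [DecidableEq n] in
theorem InX.add {N : Matrix n n (PowerSeries Ω)} {v w : n → Ω} (hv : InX N v) (hw : InX N w) :
    InX N (v + w) := by
  obtain ⟨u, hu, hu0⟩ := hv
  obtain ⟨u', hu', hu0'⟩ := hw
  refine ⟨u + u', ?_, fun i => ?_⟩
  · rw [Matrix.mulVec_add, hu, hu', add_zero]
  · rw [Pi.add_apply, map_add, hu0, hu0', Pi.add_apply]

omit [CharZero Ω] [DecidableEq n] in
theorem InX.neg {N : Matrix n n (PowerSeries Ω)} {v : n → Ω} (hv : InX N v) :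
    InX N (-v) := by
  obtain ⟨u, hu, hu0⟩ := hv
  refine ⟨-u, ?_, fun i => ?_⟩
  · rw [Matrix.mulVec_neg, hu, neg_zero]
  · rw [Pi.neg_apply, map_neg, hu0, Pi.neg_apply]

omit [CharZero Ω] [DecidableEq n] in
/-- coefficient of `x` of `N u` -/
theorem coeff_one_mulVec (N : Matrix n n (PowerSeries Ω)) (u : n → PowerSeries Ω) (i : n) :
    PowerSeries.coeff 1 ((N *ᵥ u) i) =
      (N.map (PowerSeries.coeff 1) *ᵥ (fun j => PowerSeries.constantCoeff (u j))) i +
      (N.map PowerSeries.constantCoeff *ᵥ (fun j => PowerSeries.coeff 1 (u j))) i := by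
  simp only [Matrix.mulVec, dotProduct, map_sum, Matrix.map_apply, ← Finset.sum_add_distrib]
  refine Finset.sum_congr rfl fun j _ => ?_
  rw [PowerSeries.coeff_mul]
  simp only [Finset.Nat.antidiagonal_succ, Finset.Nat.antidiagonal_zero]
  simp
  ring

theorem coreBR (hbru : T_BRU.{u}) (hsat : T_SAT.{u}) (a : Fin 5 → Ω) (T : Matrix n n (P2 Ω))
    (ha0 : a 0 = 0) (ha1 : a 1 ≠ 0) (hT : T * T = quart a • (1 : Matrix n n (P2 Ω)))
    (h0 : T.map ev0 = 0) (hn : 4 ≤ Fintype.card n)
    (hno : ∀ D : HD (quart a) T, ev0 D.s = 0 → D.D1.map ev0 = 0)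
    (hnot : ∀ D : HD (quart a) Tᵀ, ev0 D.s = 0 → D.D1.map ev0 = 0)
    (v w : n → Ω) (hvw : T.map lx *ᵥ v = T.map ly *ᵥ w) :
    ∃ w' : n → Ω, T.map ly *ᵥ v = T.map lx *ᵥ w' := by
  set N : Matrix n n (PowerSeries Ω) := T.map (cc Ω) with hN
  set X : Matrix n n Ω := T.map lx with hX
  set Y : Matrix n n Ω := T.map ly with hY
  have hNN : N * N = 0 := by
    have h1 := congrArg (fun M : Matrix n n (P2 Ω) => M.map (cc Ω)) hT
    simp only [Matrix.map_mul] at h1
    rw [← hN] at h1
    rw [h1]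
    refine Matrix.ext fun i j => ?_
    simp only [Matrix.map_apply, Matrix.smul_apply, smul_eq_mul, map_mul, cc_quart, ha0]
    simp
  have hN1 : N.map (PowerSeries.coeff 1) = X := by
    refine Matrix.ext fun i j => ?_
    rw [hN, hX, Matrix.map_apply, Matrix.map_apply, Matrix.map_apply, lx, cf_cc]
  have hN0 : N.map PowerSeries.constantCoeff = 0 := by
    refine Matrix.ext fun i j => ?_
    rw [hN, Matrix.map_apply, Matrix.map_apply, ← ev0_eq]
    exact congrFun (congrFun h0 i) j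
  -- (i)
  have hi : ∀ u : n → PowerSeries Ω, N *ᵥ u = 0 →
      Y *ᵥ (fun i => PowerSeries.constantCoeff (u i)) = 0 := fun u hu =>
    killBR hbru a T ha0 ha1 hT h0 hn hno u hu
  have h0t : Tᵀ.map ev0 = 0 := by
    rw [Matrix.transpose_map, h0, Matrix.transpose_zero]
  have hit : ∀ φ : n → PowerSeries Ω, φ ᵥ* N = 0 →
      (fun i => PowerSeries.constantCoeff (φ i)) ᵥ* Y = 0 := by
    intro φ hφ
    have h1 := killBR hbru a Tᵀ ha0 ha1 (transpose_sq hT) h0t hn hnot φ (by
      rw [Matrix.transpose_map, Matrix.mulVec_transpose]; exact hφ)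
    rw [Matrix.transpose_map, Matrix.mulVec_transpose] at h1
    exact h1
  -- quart a = y h
  have hdh : py Ω ∣ quart a := by
    rw [py_dvd_iff]
    change cc Ω _ = 0
    rw [cc_quart, ha0]
    simp
  obtain ⟨h, hh⟩ := hdh
  have hcch : cc Ω h = PowerSeries.C (a 1) * PowerSeries.X ^ 3 := by
    apply PowerSeries.ext
    intro m
    rw [← cf_cc]
    have h1 : cf m 0 h = cf m 1 (quart a) := by
      rw [hh]
      have := cf_py_pow_mul 1 m 1 h
      rw [pow_one] at this
      rw [this]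
      simp
    rw [h1, cf_quart, Fin.sum_univ_five, PowerSeries.coeff_C_mul, PowerSeries.coeff_X_pow]
    simp
  -- the vector T^1 u
  have hT1 : ∀ u : n → PowerSeries Ω, N *ᵥ u = 0 →
      N *ᵥ (T.map (PowerSeries.coeff 1) *ᵥ u) =
        (PowerSeries.C (a 1) * PowerSeries.X ^ 3) • u := by
    intro u hu
    have hd : ∀ i, py Ω ∣ (T *ᵥ (fun j => PowerSeries.C (u j) : n → P2 Ω)) i := by
      intro i
      rw [py_dvd_iff]
      change cc Ω _ = 0
      rw [map_mulVec_cc]
      simp only [cc_C]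
      exact congrFun hu i
    choose u' hu' using hd
    have h1 : T *ᵥ (fun j => PowerSeries.C (u j) : n → P2 Ω) = py Ω • u' := funext hu'
    have h2 : T *ᵥ u' = h • (fun j => PowerSeries.C (u j) : n → P2 Ω) := by
      have h3 : py Ω • (T *ᵥ u') = py Ω • (h • (fun j => PowerSeries.C (u j) : n → P2 Ω)) := by
        rw [← Matrix.mulVec_smul, ← h1, Matrix.mulVec_mulVec, hT, Matrix.smul_mulVec,
          Matrix.one_mulVec, smul_smul, ← hh]
      exact smul_right_injective _ py_ne_zero h3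
    have h3 : (fun i => cc Ω (u' i)) = T.map (PowerSeries.coeff 1) *ᵥ u := by
      funext i
      have h4 := congrArg (PowerSeries.coeff 1) (hu' i)
      rw [py_eq, PowerSeries.coeff_one_mul] at h4
      simp only [Matrix.mulVec, dotProduct, map_sum, PowerSeries.coeff_mul_C] at h4
      simp only [Matrix.mulVec, dotProduct, Matrix.map_apply]
      rw [h4]
      simp
    rw [← h3]
    funext i
    have h4 := congrArg (cc Ω) (congrFun h2 i)
    rw [map_mulVec_cc] at h4
    rw [hN, h4]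
    simp only [Pi.smul_apply, smul_eq_mul, map_mul, hcch, cc_C]
  have hC1 : PowerSeries.C (a 1)⁻¹ * PowerSeries.C (a 1) = (1 : PowerSeries Ω) := by
    rw [← map_mul, inv_mul_cancel₀ ha1, map_one]
  -- SAT
  have hS : ∀ v : n → Ω, (∀ φ : n → PowerSeries Ω, φ ᵥ* N = 0 →
      (fun i => PowerSeries.constantCoeff (φ i)) ⬝ᵥ v = 0) → InX N v := by
    refine hsat Ω n N 3 hNN fun u hu => ⟨PowerSeries.C (a 1)⁻¹ •
      (T.map (PowerSeries.coeff 1) *ᵥ u), ?_⟩
    rw [Matrix.mulVec_smul, hT1 u hu, smul_smul, ← mul_assoc, hC1, one_mul]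
  have hYX : ∀ v : n → Ω, InX N (Y *ᵥ v) := by
    intro v
    apply hS
    intro φ hφ
    rw [Matrix.dotProduct_mulVec, hit φ hφ, zero_dotProduct]
  have hXX : ∀ v : n → Ω, InX N (X *ᵥ v) := by
    intro v
    have hd : ∀ i, (PowerSeries.X : PowerSeries Ω) ∣
        (N *ᵥ (fun j => PowerSeries.C (v j))) i := by
      intro i
      rw [PowerSeries.X_dvd_iff]
      simp only [Matrix.mulVec, dotProduct, map_sum, map_mul]
      refine Finset.sum_eq_zero fun j _ => ?_
      have : PowerSeries.constantCoeff (N i j) = 0 := congrFun (congrFun hN0 i) j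
      rw [this, zero_mul]
    choose w hw using hd
    have hw' : N *ᵥ (fun j => PowerSeries.C (v j)) = (PowerSeries.X : PowerSeries Ω) • w :=
      funext hw
    refine ⟨w, ?_, fun i => ?_⟩
    · have h1 : (PowerSeries.X : PowerSeries Ω) • (N *ᵥ w) =
          (PowerSeries.X : PowerSeries Ω) • (0 : n → PowerSeries Ω) := by
        rw [← Matrix.mulVec_smul, ← hw', Matrix.mulVec_mulVec, hNN, Matrix.zero_mulVec, smul_zero]
      exact smul_right_injective _ PowerSeries.X_ne_zero h1
    · have h1 := congrArg (PowerSeries.coeff 1) (hw i)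
      rw [coeff_one_mulVec, hN1, hN0, Matrix.zero_mulVec] at h1
      have h2 : PowerSeries.coeff 1 (PowerSeries.X * w i) = PowerSeries.constantCoeff (w i) := by
        have := PowerSeries.coeff_succ_X_mul 0 (w i)
        rw [zero_add] at this
        rw [this]
        simp
      rw [h2] at h1
      simp only [PowerSeries.constantCoeff_C, Pi.zero_apply, add_zero] at h1
      exact h1.symm
  -- coefficients of T^2
  have h00 : cm 0 0 T = 0 := by
    rw [← h0]
    refine Matrix.ext fun p q => ?_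
    simp [cm, ev0_eq_cf]
  have hXc : cm 1 0 T = X := rfl
  have hYc : cm 0 1 T = Y := rfl
  have hc3 : Y * cm 0 2 T + cm 0 2 T * Y = 0 := by
    have h1 := congrArg (cm 0 3) hT
    rw [cm_mul, cm_quart, cf_quart] at h1
    simp only [Finset.Nat.antidiagonal_succ, Finset.Nat.antidiagonal_zero] at h1
    simp [h00, hYc, Fin.sum_univ_five] at h1
    exact h1
  have hc12 : X * cm 0 2 T + cm 0 2 T * X + Y * cm 1 1 T + cm 1 1 T * Y = 0 := by
    have h1 := congrArg (cm 1 2) hT
    rw [cm_mul, cm_quart, cf_quart] at h1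
    simp only [Finset.Nat.antidiagonal_succ, Finset.Nat.antidiagonal_zero] at h1
    simp [h00, hYc, hXc, Fin.sum_univ_five] at h1
    rw [← h1]
    abel
  -- (K3)
  have hK3 : ∀ x0 : n → Ω, InX N x0 → InX N (cm 1 1 T *ᵥ x0) → ∃ w' : n → Ω, x0 = X *ᵥ w' := by
    rintro x0 ⟨u, hu, hu0⟩ hx0
    have hu0' : (fun i => PowerSeries.constantCoeff (u i)) = x0 := funext hu0
    have hd : ∀ i, (PowerSeries.X : PowerSeries Ω) ∣ (T.map (PowerSeries.coeff 1) *ᵥ u) i := by
      intro i
      rw [PowerSeries.X_dvd_iff]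
      have h1 := congrFun (hi u hu) i
      simp only [Matrix.mulVec, dotProduct, map_sum, map_mul, Matrix.map_apply]
      refine Eq.trans ?_ h1
      simp only [Matrix.mulVec, dotProduct, hY, Matrix.map_apply]
      refine Finset.sum_congr rfl fun j _ => ?_
      congr 1
      simp [ly, cf]
    choose u2 hu2 using hd
    have hu2' : T.map (PowerSeries.coeff 1) *ᵥ u = (PowerSeries.X : PowerSeries Ω) • u2 :=
      funext hu2
    have hval : (fun i => PowerSeries.constantCoeff (u2 i)) =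
        cm 1 1 T *ᵥ x0 + Y *ᵥ (fun j => PowerSeries.coeff 1 (u j)) := by
      funext i
      have h1 := congrArg (PowerSeries.coeff 1) (hu2 i)
      rw [coeff_one_mulVec, hu0'] at h1
      have h2 : PowerSeries.coeff 1 (PowerSeries.X * u2 i) = PowerSeries.constantCoeff (u2 i) := by
        have := PowerSeries.coeff_succ_X_mul 0 (u2 i)
        rw [zero_add] at this
        rw [this]
        simp
      rw [h2] at h1
      rw [← h1, Pi.add_apply]
      congr 1
      simp only [Matrix.mulVec, dotProduct, hY, Matrix.map_apply]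
      refine Finset.sum_congr rfl fun j _ => ?_
      congr 1
      simp [ly, cf]
    have hN2 : N *ᵥ u2 = (PowerSeries.C (a 1) * PowerSeries.X ^ 2) • u := by
      have h1 : (PowerSeries.X : PowerSeries Ω) • (N *ᵥ u2) = (PowerSeries.X : PowerSeries Ω) •
          ((PowerSeries.C (a 1) * PowerSeries.X ^ 2) • u) := by
        rw [← Matrix.mulVec_smul, ← hu2', hT1 u hu, smul_smul]
        congr 1
        ring
      exact smul_right_injective _ PowerSeries.X_ne_zero h1
    obtain ⟨e, he, he0⟩ := hx0.add (hYX fun j => PowerSeries.coeff 1 (u j))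
    have hd2 : ∀ i, (PowerSeries.X : PowerSeries Ω) ∣ u2 i - e i := by
      intro i
      rw [PowerSeries.X_dvd_iff, map_sub, he0, ← hval, sub_self]
    choose w1 hw1 using hd2
    have hw2 : u2 = e + (PowerSeries.X : PowerSeries Ω) • w1 := by
      funext i
      rw [Pi.add_apply, Pi.smul_apply, smul_eq_mul, ← hw1 i]
      ring
    have hN3 : N *ᵥ w1 = (PowerSeries.C (a 1) * PowerSeries.X) • u := by
      have h1 : (PowerSeries.X : PowerSeries Ω) • (N *ᵥ w1) = (PowerSeries.X : PowerSeries Ω) •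
          ((PowerSeries.C (a 1) * PowerSeries.X) • u) := by
        have h2 : N *ᵥ u2 = (PowerSeries.X : PowerSeries Ω) • (N *ᵥ w1) := by
          rw [hw2, Matrix.mulVec_add, he, zero_add, Matrix.mulVec_smul]
        rw [← h2, hN2, smul_smul]
        congr 1
        ring
      exact smul_right_injective _ PowerSeries.X_ne_zero h1
    refine ⟨(a 1)⁻¹ • (fun i => PowerSeries.constantCoeff (w1 i)), ?_⟩
    rw [Matrix.mulVec_smul]
    funext i
    have h1 := congrArg (PowerSeries.coeff 1) (congrFun hN3 i)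
    rw [coeff_one_mulVec, hN1, hN0, Matrix.zero_mulVec, Pi.zero_apply, add_zero] at h1
    rw [Pi.smul_apply, h1, Pi.smul_apply, smul_eq_mul, smul_eq_mul, mul_assoc,
      PowerSeries.coeff_C_mul]
    have h2 : PowerSeries.coeff 1 (PowerSeries.X * u i) = PowerSeries.constantCoeff (u i) := by
      have := PowerSeries.coeff_succ_X_mul 0 (u i)
      rw [zero_add] at this
      rw [this]
      simp
    rw [h2, hu0, ← mul_assoc, inv_mul_cancel₀ ha1, one_mul]
  -- (K4)
  apply hK3 _ (hYX v)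
  have h1 : cm 1 1 T *ᵥ (Y *ᵥ v) = -(X *ᵥ (cm 0 2 T *ᵥ v)) + (Y *ᵥ (cm 0 2 T *ᵥ w)) +
      -(Y *ᵥ (cm 1 1 T *ᵥ v)) := by
    have h2 := congrArg (fun M : Matrix n n Ω => M *ᵥ v) hc12
    have h3 := congrArg (fun M : Matrix n n Ω => M *ᵥ w) hc3
    simp only [Matrix.add_mulVec, ← Matrix.mulVec_mulVec, Matrix.zero_mulVec] at h2 h3
    rw [hvw] at h2
    have h4 : cm 1 1 T *ᵥ (Y *ᵥ v) = -(X *ᵥ (cm 0 2 T *ᵥ v)) - (cm 0 2 T *ᵥ (Y *ᵥ w)) -
        (Y *ᵥ (cm 1 1 T *ᵥ v)) := by
      rw [← sub_eq_zero, ← h2]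
      abel
    have h5 : (cm 0 2 T *ᵥ (Y *ᵥ w)) = -(Y *ᵥ (cm 0 2 T *ᵥ w)) := by
      rw [← sub_eq_zero, ← h3]
      abel
    rw [h4, h5]
    abel
  rw [h1]
  exact ((hXX _).neg.add (hYX _)).add (hYX _).neg

end Core

/-- **BR** -/
theorem br (hbru : T_BRU.{u}) (hsat : T_SAT.{u}) : T_BR.{u} := by
  intro Ω _ _ _ n _ _ a T ha0 ha1 hT h0 hn
  by_cases hD : ∃ D : HD (quart a) T, ev0 D.s = 0 ∧ D.D1.map ev0 ≠ 0
  · exact Or.inl hD
  · refine Or.inr ?_
    push Not at hD
    have hno : ∀ D : HD (quart a) Tᵀ, ev0 D.s = 0 → D.D1.map ev0 = 0 := by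
      intro D hs
      have h1 := hD (trHD D) hs
      rw [trHD_D1] at h1
      refine Matrix.ext fun i j => ?_
      have h2 := congrFun (congrFun h1 j) i
      simp only [Matrix.map_apply, Matrix.neg_apply, Matrix.transpose_apply, map_neg,
        Matrix.zero_apply, neg_eq_zero] at h2
      exact h2
    intro v w hvw
    exact coreBR hbru hsat a T ha0 ha1 hT h0 hn hD hno v w hvw

end Pool.Agent.H79.HS
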