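import Pool.Agent.H79.HS.NBAux

/-!
# MP_eb1332_ag, module NB: absence of good Hecke data in a nonbranch direction
-/

namespace Pool.Agent.H79.HS

open Matrix Pool.Agent.H12.HS

universe u

section Core
variable {Ω : Type u} [Field Ω] [CharZero Ω] {n : Type} [Fintype n] [DecidableEq n]

theorem kill (hnbu : T_NBU.{u}) (a : Fin 5 → Ω) (T : Matrix n n (P2 Ω))
    (hT : T * T = quart a • (1 : Matrix n n (P2 Ω))) (htr : T.trace = 0) (h0 : T.map ev0 = 0)
    (hn : 4 ≤ Fintype.card n)
    (hno : ∀ D : HD (quart a) T, ev0 D.s = 0 → D.D1.map ev0 = 0) (z0 : Ω) (hz : z0 ^ 2 = a 0)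
    (hz0 : z0 ≠ 0) (u : n → PowerSeries Ω)
    (hu : (T.map (cc Ω)) *ᵥ u = (PowerSeries.C z0 * PowerSeries.X ^ 2) • u) :
    T.map ly *ᵥ (fun i => PowerSeries.constantCoeff (u i)) = 0 := by
  by_cases hp : ∃ i, PowerSeries.constantCoeff (u i) ≠ 0
  · obtain ⟨φ, D, hφp, -, hl, hs, ha, hDu, hDφ⟩ := hnbu Ω n a T hT htr hn z0 hz hz0 u hu hp
    have h1 := bad_datum hT h0 D hl (cst z0) (by rw [ha, mul_comm]) (by
      obtain ⟨i, hi⟩ := hφp
      refine ⟨i, ?_⟩
      rw [hDφ, Function.comp_apply, ev0_C]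
      exact hi) (hno D (by rw [hs]; exact ev0_px))
    have h2 : (fun j => ev0 (D.u j)) = fun i => PowerSeries.constantCoeff (u i) := by
      funext j
      rw [hDu, Function.comp_apply, ev0_C]
    rw [h2] at h1
    exact h1
  · push Not at hp
    have : (fun i => PowerSeries.constantCoeff (u i)) = (0 : n → Ω) := funext hp
    rw [this, Matrix.mulVec_zero]

theorem core (hnbu : T_NBU.{u}) (a : Fin 5 → Ω) (T : Matrix n n (P2 Ω))
    (hT : T * T = quart a • (1 : Matrix n n (P2 Ω))) (htr : T.trace = 0) (h0 : T.map ev0 = 0)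
    (hn : 4 ≤ Fintype.card n)
    (hno : ∀ D : HD (quart a) T, ev0 D.s = 0 → D.D1.map ev0 = 0) (z0 : Ω) (hz : z0 ^ 2 = a 0)
    (hz0 : z0 ≠ 0) (v : n → Ω) (hv : T.map lx *ᵥ v = 0) : T.map ly *ᵥ v = 0 := by
  set N : Matrix n n (PowerSeries Ω) := T.map (cc Ω) with hN
  set α : PowerSeries Ω := PowerSeries.C z0 * PowerSeries.X ^ 2 with hα
  have hNN : N * N = (α * α) • (1 : Matrix n n (PowerSeries Ω)) := by
    have h1 := congrArg (fun M : Matrix n n (P2 Ω) => M.map (cc Ω)) hT
    simp only [Matrix.map_mul] at h1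
    rw [← hN] at h1
    rw [h1]
    refine Matrix.ext fun i j => ?_
    simp only [Matrix.map_apply, Matrix.smul_apply, smul_eq_mul, map_mul, cc_quart]
    have h3 : PowerSeries.C (a 0) * (PowerSeries.X : PowerSeries Ω) ^ 4 = α * α := by
      rw [hα, ← hz, map_pow]
      ring
    rw [h3]
    by_cases hij : i = j
    · subst hij; simp
    · simp [hij]
  set Cv : n → PowerSeries Ω := fun i => PowerSeries.C (v i) with hCv
  have hdvd : ∀ i, (PowerSeries.X : PowerSeries Ω) ^ 2 ∣ (N *ᵥ Cv) i := by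
    intro i
    rw [PowerSeries.X_pow_dvd_iff]
    intro m hm
    have h1 : PowerSeries.coeff m ((N *ᵥ Cv) i) = ∑ j, cf m 0 (T i j) * v j := by
      simp only [Matrix.mulVec, dotProduct, map_sum, hCv, PowerSeries.coeff_mul_C, cf_cc]
      rfl
    rw [h1]
    interval_cases m
    · refine Finset.sum_eq_zero fun j _ => ?_
      have h3 : ev0 (T i j) = 0 := congrFun (congrFun h0 i) j
      rw [← ev0_eq_cf, h3, zero_mul]
    · exact congrFun hv i
  choose w hw using hdvd
  have hw' : N *ᵥ Cv = (PowerSeries.X : PowerSeries Ω) ^ 2 • w := by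
    funext i; exact hw i
  have hX2 : (PowerSeries.X : PowerSeries Ω) ^ 2 ≠ 0 := pow_ne_zero _ PowerSeries.X_ne_zero
  have hNw : N *ᵥ w = (PowerSeries.C z0 * α) • Cv := by
    have h1 : (PowerSeries.X : PowerSeries Ω) ^ 2 • (N *ᵥ w) =
        (PowerSeries.X : PowerSeries Ω) ^ 2 • ((PowerSeries.C z0 * α) • Cv) := by
      rw [← Matrix.mulVec_smul, ← hw', Matrix.mulVec_mulVec, hNN, Matrix.smul_mulVec,
        Matrix.one_mulVec, smul_smul]
      congr 1
      rw [hα]; ring
    exact smul_right_injective _ hX2 h1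
  have hplus : N *ᵥ (w + PowerSeries.C z0 • Cv) =
      (PowerSeries.C z0 * PowerSeries.X ^ 2) • (w + PowerSeries.C z0 • Cv) := by
    rw [Matrix.mulVec_add, Matrix.mulVec_smul, hw', hNw]
    funext i
    simp only [Pi.add_apply, Pi.smul_apply, smul_eq_mul, hα]
    ring
  have hminus : N *ᵥ (w - PowerSeries.C z0 • Cv) =
      (PowerSeries.C (-z0) * PowerSeries.X ^ 2) • (w - PowerSeries.C z0 • Cv) := by
    rw [Matrix.mulVec_sub, Matrix.mulVec_smul, hw', hNw]
    funext i
    simp only [Pi.sub_apply, Pi.smul_apply, smul_eq_mul, hα, map_neg]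
    ring
  have k1 := kill hnbu a T hT htr h0 hn hno z0 hz hz0 _ hplus
  have k2 := kill hnbu a T hT htr h0 hn hno (-z0) (by rw [neg_sq]; exact hz) (neg_ne_zero.2 hz0) _
    hminus
  have e1 : (fun i => PowerSeries.constantCoeff ((w + PowerSeries.C z0 • Cv) i)) =
      (fun i => PowerSeries.constantCoeff (w i)) + z0 • v := by
    funext i
    simp [hCv]
  have e2 : (fun i => PowerSeries.constantCoeff ((w - PowerSeries.C z0 • Cv) i)) =
      (fun i => PowerSeries.constantCoeff (w i)) - z0 • v := by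
    funext i
    simp [hCv]
  rw [e1, Matrix.mulVec_add] at k1
  rw [e2, Matrix.mulVec_sub] at k2
  have k3 : (2 * z0) • (T.map ly *ᵥ v) = 0 := by
    have : (2 * z0) • (T.map ly *ᵥ v) = (T.map ly *ᵥ (fun i => PowerSeries.constantCoeff (w i)) +
      T.map ly *ᵥ (z0 • v)) - (T.map ly *ᵥ (fun i => PowerSeries.constantCoeff (w i)) -
      T.map ly *ᵥ (z0 • v)) := by
      rw [Matrix.mulVec_smul]
      funext i
      simp only [Pi.add_apply, Pi.sub_apply, Pi.smul_apply, smul_eq_mul]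
      ring
    rw [this, k1, k2, sub_zero]
  exact (smul_eq_zero.1 k3).resolve_left (mul_ne_zero two_ne_zero hz0)

end Core

/-- **NB** -/
theorem nb (hnbu : T_NBU.{u}) (htr0 : T_TR0.{u}) : T_NB.{u} := by
  intro Ω _ _ _ n _ _ a T ha0 hsq hT h0 hn
  obtain ⟨z0, hz⟩ := IsAlgClosed.exists_pow_nat_eq (a 0) (n := 2) (by norm_num)
  have hz0 : z0 ≠ 0 := by
    intro h
    apply ha0
    rw [← hz, h]
    ring
  have htr : T.trace = 0 := htr0 (P2 Ω) (quart a) n T hsq hT
  by_cases hD : ∃ D : HD (quart a) T, ev0 D.s = 0 ∧ D.D1.map ev0 ≠ 0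
  · exact Or.inl hD
  · refine Or.inr ?_
    push Not at hD
    refine ⟨fun v hv => core hnbu a T hT htr h0 hn hD z0 hz hz0 v hv, fun v hv => ?_⟩
    have h0t : Tᵀ.map ev0 = 0 := by
      rw [Matrix.transpose_map, h0, Matrix.transpose_zero]
    have hno : ∀ D : HD (quart a) Tᵀ, ev0 D.s = 0 → D.D1.map ev0 = 0 := by
      intro D hs
      have h1 := hD (trHD D) hs
      rw [trHD_D1] at h1
      refine Matrix.ext fun i j => ?_
      have h2 := congrFun (congrFun h1 j) i
      simp only [Matrix.map_apply, Matrix.neg_apply, Matrix.transpose_apply, map_neg,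
        Matrix.zero_apply, neg_eq_zero] at h2
      exact h2
    have h1 := core hnbu a Tᵀ (transpose_sq hT) (by rw [Matrix.trace_transpose]; exact htr) h0t hn
      hno z0 hz hz0 v (by
        rw [Matrix.transpose_map, Matrix.mulVec_transpose]; exact hv)
    rw [Matrix.transpose_map, Matrix.mulVec_transpose] at h1
    exact h1

end Pool.Agent.H79.HS
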