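import Pool.Agent.H12.HS.Targets
import Pool.Agent.H12.HS.Basic

/-!
# MP_eb1332_ag, module NBU: Hecke data in a nonbranch direction
-/

namespace Pool.Agent.H79.HS

open Matrix Pool.Agent.H12.HS

universe u

section Aux
variable {Ω : Type u} [Field Ω]

/-- a nonzero vector of power series is a power of `X` times a primitive vector -/
theorem exists_primitive {n : Type} [Finite n] (ψ : n → PowerSeries Ω) (h : ψ ≠ 0) :
    ∃ (e : ℕ) (φ : n → PowerSeries Ω), ψ = (PowerSeries.X : PowerSeries Ω) ^ e • φ ∧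
      ∃ i, PowerSeries.constantCoeff (φ i) ≠ 0 := by
  classical
  obtain ⟨i0, hi0⟩ := Function.ne_iff.1 h
  have hex : ∃ e : ℕ, ¬ ∀ i, (PowerSeries.X : PowerSeries Ω) ^ (e + 1) ∣ ψ i := by
    obtain ⟨m, hm⟩ := PowerSeries.exists_coeff_ne_zero_iff_ne_zero.2 hi0
    refine ⟨m, fun hall => hm ?_⟩
    exact PowerSeries.X_pow_dvd_iff.1 (hall i0) m (Nat.lt_succ_self m)
  let e := Nat.find hex
  have he : ¬ ∀ i, (PowerSeries.X : PowerSeries Ω) ^ (e + 1) ∣ ψ i := Nat.find_spec hex
  have hdvd : ∀ i, (PowerSeries.X : PowerSeries Ω) ^ e ∣ ψ i := by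
    rcases Nat.eq_zero_or_pos e with h0 | h0
    · rw [h0]; intro i; simp
    · have h1 : e - 1 < e := Nat.sub_lt h0 Nat.one_pos
      have h2 := Nat.find_min hex h1
      rw [not_not] at h2
      have h3 : e - 1 + 1 = e := Nat.sub_add_cancel h0
      rw [h3] at h2
      exact h2
  choose φ hφ using hdvd
  refine ⟨e, φ, ?_, ?_⟩
  · funext i
    rw [hφ i]; rfl
  · by_contra hne
    push Not at hne
    apply he
    intro i
    obtain ⟨c, hc⟩ := PowerSeries.X_dvd_iff.2 (hne i)
    rw [hφ i, hc, pow_succ, ← mul_assoc]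
    exact Dvd.intro _ rfl

/-- the constant coefficient `P2 → Ω[[x]]` -/
noncomputable abbrev cc (Ω : Type u) [Field Ω] : P2 Ω →+* PowerSeries Ω :=
  PowerSeries.constantCoeff

theorem cc_C (p : PowerSeries Ω) : cc Ω (PowerSeries.C p) = p := by simp [cc]

theorem cc_px : cc Ω (px Ω) = PowerSeries.X := by simp [cc, px]

theorem cc_py : cc Ω (py Ω) = 0 := by simp [cc, py]

theorem cc_cst (c : Ω) : cc Ω (cst c) = PowerSeries.C c := by simp [cc, cst]

theorem cc_quart (a : Fin 5 → Ω) :
    cc Ω (quart a) = PowerSeries.C (a 0) * PowerSeries.X ^ 4 := by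
  rw [quart, map_sum]
  simp only [map_mul, map_pow, cc_px, cc_py, cc_cst]
  rw [Fin.sum_univ_five]
  simp

theorem cc_alpha (z0 : Ω) : cc Ω (cst z0 * px Ω ^ 2) = PowerSeries.C z0 * PowerSeries.X ^ 2 := by
  rw [map_mul, map_pow, cc_cst, cc_px]

theorem map_mulVec_cc {n : Type} [Fintype n] (T : Matrix n n (P2 Ω)) (v : n → P2 Ω) (i : n) :
    cc Ω ((T *ᵥ v) i) = ((T.map (cc Ω)) *ᵥ (fun j => cc Ω (v j))) i := by
  simp only [Matrix.mulVec, dotProduct, map_sum, map_mul, Matrix.map_apply]

theorem map_vecMul_cc {n : Type} [Fintype n] (T : Matrix n n (P2 Ω)) (v : n → P2 Ω) (i : n) :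
    cc Ω ((v ᵥ* T) i) = ((fun j => cc Ω (v j)) ᵥ* (T.map (cc Ω))) i := by
  simp only [Matrix.vecMul, dotProduct, map_sum, map_mul, Matrix.map_apply]

end Aux

/-- **NBU** -/
theorem nbu : T_NBU.{u} := by
  intro Ω _ _ n _ _ a T hT htr hn z0 hz hz0 u hu hprim
  classical
  set N : Matrix n n (PowerSeries Ω) := T.map (cc Ω) with hN
  set α : PowerSeries Ω := PowerSeries.C z0 * PowerSeries.X ^ 2 with hα
  have hα0 : α ≠ 0 := by
    rw [hα]
    refine mul_ne_zero ?_ (pow_ne_zero _ PowerSeries.X_ne_zero)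
    simpa using hz0
  have h2 : (2 : PowerSeries Ω) ≠ 0 := by
    intro h0
    have h1 := congrArg (PowerSeries.constantCoeff (R := Ω)) h0
    rw [map_ofNat, map_zero] at h1
    exact two_ne_zero h1
  -- N^2 = alpha^2
  have hNN : N * N = (α * α) • (1 : Matrix n n (PowerSeries Ω)) := by
    have h1 := congrArg (fun M : Matrix n n (P2 Ω) => M.map (cc Ω)) hT
    simp only [Matrix.map_mul] at h1
    rw [← hN] at h1
    rw [h1]
    refine Matrix.ext fun i j => ?_
    simp only [Matrix.map_apply, Matrix.smul_apply, smul_eq_mul, map_mul, cc_quart]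
    have h3 : PowerSeries.C (a 0) * (PowerSeries.X : PowerSeries Ω) ^ 4 = α * α := by
      rw [hα, ← hz, map_pow]
      ring
    rw [h3]
    by_cases hij : i = j
    · subst hij; simp
    · simp [hij]
  have htrN : N.trace = 0 := by
    have : N.trace = cc Ω T.trace := by
      rw [hN, Matrix.trace, Matrix.trace, map_sum]
      rfl
    rw [this, htr, map_zero]
  have hu' : N *ᵥ u = α • u := hu
  set M : Matrix n n (PowerSeries Ω) := N + α • (1 : Matrix n n (PowerSeries Ω)) with hM
  have hMN : M * N = α • M := by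
    rw [hM, add_mul, hNN, smul_mul_assoc, one_mul, smul_add, smul_smul, add_comm]
  have hMM : M * M = (2 * α) • M := by
    have : M * M = M * N + M * (α • (1 : Matrix n n (PowerSeries Ω))) := by
      rw [← mul_add]
    rw [this, hMN, Matrix.mul_smul, mul_one, ← add_smul]
    congr 1
    ring
  have hMu : M *ᵥ u = (2 * α) • u := by
    rw [hM, Matrix.add_mulVec, hu', Matrix.smul_mulVec, Matrix.one_mulVec, ← add_smul]
    congr 1
    ring
  have htrM : M.trace = (Fintype.card n : PowerSeries Ω) * α := by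
    rw [hM, Matrix.trace_add, htrN, zero_add, Matrix.trace_smul, Matrix.trace_one, smul_eq_mul,
      mul_comm]
  -- existence of a nonzero combination
  have hex : ∃ i k : n, (u k • M i - u i • M k : n → PowerSeries Ω) ≠ 0 := by
    by_contra hcon
    push Not at hcon
    obtain ⟨k, hk⟩ := hprim
    have huk : u k ≠ 0 := by
      intro h0; apply hk; rw [h0, map_zero]
    have hrow : ∀ i j, u k * M i j = u i * M k j := by
      intro i j
      have h3 := congrFun (hcon i k) j
      simp only [Pi.sub_apply, Pi.smul_apply, smul_eq_mul, Pi.zero_apply] at h3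
      exact sub_eq_zero.1 h3
    have hmin : ∀ i j i' j', M i j * M i' j' = M i j' * M i' j := by
      intro i j i' j'
      have h4 : (u k * u k) * (M i j * M i' j') = (u k * u k) * (M i j' * M i' j) := by
        have e1 := hrow i j
        have e2 := hrow i' j'
        have e3 := hrow i j'
        have e4 := hrow i' j
        calc (u k * u k) * (M i j * M i' j') = (u k * M i j) * (u k * M i' j') := by ring
          _ = (u i * M k j) * (u i' * M k j') := by rw [e1, e2]
          _ = (u i * M k j') * (u i' * M k j) := by ring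
          _ = (u k * M i j') * (u k * M i' j) := by rw [e3, e4]
          _ = _ := by ring
      exact mul_left_cancel₀ (mul_ne_zero huk huk) h4
    have hMM2 : M * M = M.trace • M := by
      refine Matrix.ext fun i l => ?_
      rw [Matrix.mul_apply, Matrix.smul_apply, Matrix.trace, smul_eq_mul, Finset.sum_mul]
      refine Finset.sum_congr rfl fun j _ => ?_
      rw [hmin i j j l, Matrix.diag_apply, mul_comm]
    have h5 : ((Fintype.card n : PowerSeries Ω) * α - 2 * α) • M = 0 := by
      rw [sub_smul, ← hMM, ← htrM, ← hMM2, sub_self]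
    have h6 : ((Fintype.card n : PowerSeries Ω) * α - 2 * α) ≠ 0 := by
      have : ((Fintype.card n : PowerSeries Ω) * α - 2 * α) = ((Fintype.card n : PowerSeries Ω) - 2) * α := by ring
      rw [this]
      refine mul_ne_zero ?_ hα0
      intro h7
      have h8 : ((Fintype.card n : ℕ) : PowerSeries Ω) = ((2 : ℕ) : PowerSeries Ω) := by
        rw [sub_eq_zero] at h7
        simpa using h7
      have h9 := congrArg (PowerSeries.constantCoeff (R := Ω)) h8
      simp only [map_natCast] at h9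
      have h10 : Fintype.card n = 2 := Nat.cast_injective h9
      omega
    have h7 : M = 0 := by
      refine Matrix.ext fun i j => ?_
      have h8 := congrFun (congrFun h5 i) j
      simp only [Matrix.smul_apply, smul_eq_mul, Matrix.zero_apply] at h8
      exact (mul_eq_zero.1 h8).resolve_left h6
    have h8 : (Fintype.card n : PowerSeries Ω) * α = 0 := by
      rw [← htrM, h7, Matrix.trace_zero]
    rcases mul_eq_zero.1 h8 with h9 | h9
    · have h10 := congrArg (PowerSeries.constantCoeff (R := Ω)) h9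
      simp only [map_natCast, map_zero] at h10
      have h11 : Fintype.card n = 0 := by exact_mod_cast h10
      omega
    · exact hα0 h9
  obtain ⟨i, k, hik⟩ := hex
  have hrowN : ∀ i, (M i) ᵥ* N = α • M i := by
    intro i
    have h3 := congrFun hMN i
    have h4 : (M * N) i = M i ᵥ* N := by
      funext j
      rw [Matrix.mul_apply]; rfl
    rw [← h4, h3]; rfl
  have hrowu : ∀ i, (M i) ⬝ᵥ u = 2 * α * u i := by
    intro i
    have h3 := congrFun hMu i
    exact h3
  obtain ⟨e, φ, hφ, hφprim⟩ := exists_primitive _ hik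
  have hXe : (PowerSeries.X : PowerSeries Ω) ^ e ≠ 0 := pow_ne_zero _ PowerSeries.X_ne_zero
  have hφN : φ ᵥ* N = α • φ := by
    have h3 : ((PowerSeries.X : PowerSeries Ω) ^ e • φ) ᵥ* N = α • ((PowerSeries.X : PowerSeries Ω) ^ e • φ) := by
      rw [← hφ, Matrix.sub_vecMul, Matrix.smul_vecMul, Matrix.smul_vecMul, hrowN, hrowN,
        smul_sub]
      congr 1 <;> rw [smul_comm]
    rw [Matrix.smul_vecMul, smul_comm α] at h3
    exact smul_right_injective _ hXe h3
  have hφu : φ ⬝ᵥ u = 0 := by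
    have h3 : ((PowerSeries.X : PowerSeries Ω) ^ e • φ) ⬝ᵥ u = 0 := by
      rw [← hφ, sub_dotProduct, smul_dotProduct, smul_dotProduct, hrowu, hrowu]
      simp only [smul_eq_mul]
      ring
    rw [smul_dotProduct, smul_eq_mul] at h3
    exact (mul_eq_zero.1 h3).resolve_left hXe
  -- the Hecke datum
  set A : P2 Ω := cst z0 * px Ω ^ 2 with hA
  have hccA : cc Ω A = α := cc_alpha z0
  have hl0 : py Ω ≠ 0 := py_ne_zero
  have hdu : ∀ i, py Ω ∣ (T *ᵥ (PowerSeries.C ∘ u) - A • (PowerSeries.C ∘ u)) i := by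
    intro i
    rw [py_dvd_iff]
    change cc Ω _ = 0
    rw [Pi.sub_apply, map_sub, map_mulVec_cc]
    simp only [Function.comp_apply, cc_C, Pi.smul_apply, smul_eq_mul, map_mul, hccA]
    rw [← hN]
    change (N *ᵥ u) i - α * u i = 0
    rw [hu']
    simp
  have hdφ : ∀ i, py Ω ∣ ((PowerSeries.C ∘ φ) ᵥ* T - A • (PowerSeries.C ∘ φ)) i := by
    intro i
    rw [py_dvd_iff]
    change cc Ω _ = 0
    rw [Pi.sub_apply, map_sub, map_vecMul_cc]
    simp only [Function.comp_apply, cc_C, Pi.smul_apply, smul_eq_mul, map_mul, hccA]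
    rw [← hN]
    change (φ ᵥ* N) i - α * φ i = 0
    rw [hφN]
    simp
  choose u' hu'' using hdu
  choose φ' hφ' using hdφ
  have hdh : py Ω ∣ quart a - A ^ 2 := by
    rw [py_dvd_iff]
    change cc Ω _ = 0
    rw [map_sub, cc_quart, map_pow, hccA, hα, ← hz]
    simp only [map_pow]
    ring
  obtain ⟨h, hh⟩ := hdh
  have hu1 : T *ᵥ (PowerSeries.C ∘ u) = A • (PowerSeries.C ∘ u) + py Ω • u' := by
    funext i
    have := hu'' i
    simp only [Pi.sub_apply, Pi.add_apply, Pi.smul_apply, smul_eq_mul] at this ⊢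
    rw [← this]; ring
  have hφ1 : (PowerSeries.C ∘ φ) ᵥ* T = A • (PowerSeries.C ∘ φ) + py Ω • φ' := by
    funext i
    have := hφ' i
    simp only [Pi.sub_apply, Pi.add_apply, Pi.smul_apply, smul_eq_mul] at this ⊢
    rw [← this]; ring
  have hφu1 : (PowerSeries.C ∘ φ) ⬝ᵥ (PowerSeries.C ∘ u : n → P2 Ω) = 0 := by
    have : (PowerSeries.C ∘ φ) ⬝ᵥ (PowerSeries.C ∘ u : n → P2 Ω) =
        PowerSeries.C (φ ⬝ᵥ u) := by
      simp only [dotProduct, map_sum, map_mul, Function.comp_apply]
    rw [this, hφu, map_zero]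
  have hTu' : T *ᵥ u' + A • u' = h • (PowerSeries.C ∘ u) := by
    have h3 : T *ᵥ (T *ᵥ (PowerSeries.C ∘ u)) = quart a • (PowerSeries.C ∘ u) := by
      rw [Matrix.mulVec_mulVec, hT, Matrix.smul_mulVec, Matrix.one_mulVec]
    rw [hu1, Matrix.mulVec_add, Matrix.mulVec_smul, Matrix.mulVec_smul, hu1] at h3
    have h4 : py Ω • (T *ᵥ u' + A • u') = py Ω • (h • (PowerSeries.C ∘ u)) := by
      rw [smul_smul, ← hh]
      rw [sub_smul, ← h3]
      funext i
      simp only [Pi.add_apply, Pi.sub_apply, Pi.smul_apply, smul_eq_mul]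
      ring
    exact smul_right_injective _ hl0 h4
  have hψd : py Ω ∣ (PowerSeries.C ∘ φ) ⬝ᵥ u' := by
    have h3 := congrArg (fun w => (PowerSeries.C ∘ φ) ⬝ᵥ w) hTu'
    simp only [dotProduct_add, dotProduct_smul, hφu1, smul_eq_mul, mul_zero] at h3
    rw [Matrix.dotProduct_mulVec, hφ1, add_dotProduct, smul_dotProduct, smul_dotProduct,
      smul_eq_mul, smul_eq_mul] at h3
    rw [py_dvd_iff]
    change cc Ω _ = 0
    have h4 := congrArg (cc Ω) h3
    simp only [map_add, map_mul, cc_py, zero_mul, add_zero, map_zero, hccA] at h4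
    have h5 : (2 * α) * cc Ω ((PowerSeries.C ∘ φ) ⬝ᵥ u') = 0 := by
      rw [← h4]; ring
    exact (mul_eq_zero.1 h5).resolve_left (mul_ne_zero h2 hα0)
  obtain ⟨ψ, hψ⟩ := hψd
  have hcan : ∀ q : P2 Ω, cc Ω q ≠ 0 → ∀ p : P2 Ω, py Ω ∣ q * p → py Ω ∣ p := by
    intro q hq p hp
    rw [py_dvd_iff] at hp ⊢
    have h3 : cc Ω (q * p) = 0 := hp
    rw [map_mul] at h3
    exact (mul_eq_zero.1 h3).resolve_left hq
  refine ⟨φ, ⟨py Ω, px Ω, A, h, ψ, PowerSeries.C ∘ u, u', PowerSeries.C ∘ φ, φ', ?_, hφu1, hu1,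
    hφ1, hψ, hl0, ?_, Or.inl ?_⟩, hφprim, hφN, rfl, rfl, rfl, rfl, rfl⟩
  · rw [← hh]; ring
  · exact hcan _ (by rw [cc_px]; exact PowerSeries.X_ne_zero)
  · exact hcan _ (by rw [hccA]; exact hα0)

end Pool.Agent.H79.HS
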