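import Pool.Agent.H79.HS.NBU

/-!
# MP_eb1332_ag: common lemmas for the modules NB and BR
-/

namespace Pool.Agent.H79.HS

open Matrix Pool.Agent.H12.HS

universe u

section Trans
variable {P : Type u} [CommRing P] [IsDomain P] {g : P} {n : Type} [Fintype n] [DecidableEq n]

/-- the transposed Hecke datum -/
def trHD {T : Matrix n n P} (D : HD g Tᵀ) : HD g T where
  l := D.l
  s := D.s
  a := D.a
  h := D.h
  ψ := D.ψ
  u := D.φ
  u' := D.φ'
  φ := D.u
  φ' := D.u'
  hg := D.hg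
  hφu := by rw [dotProduct_comm]; exact D.hφu
  hu := by
    have h := D.hφ
    rw [Matrix.vecMul_transpose] at h
    exact h
  hφ := by
    have h := D.hu
    rw [Matrix.mulVec_transpose] at h
    exact h
  hψ := by
    have h1 : (D.φ ᵥ* Tᵀ) ⬝ᵥ D.u = D.φ ⬝ᵥ (Tᵀ *ᵥ D.u) := by
      rw [Matrix.dotProduct_mulVec]
    rw [D.hφ, D.hu, add_dotProduct, dotProduct_add, smul_dotProduct, smul_dotProduct,
      dotProduct_smul, dotProduct_smul, D.hψ, D.hφu] at h1
    simp only [smul_eq_mul, mul_zero, zero_add] at h1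
    rw [dotProduct_comm]
    exact mul_left_cancel₀ D.hl h1
  hl := D.hl
  hs := D.hs
  ha := D.ha

theorem trHD_D1 {T : Matrix n n P} (D : HD g Tᵀ) : (trHD D).D1 = -D.D1ᵀ := by
  have : (trHD D).D1 = vecMulVec D.φ' D.u - vecMulVec D.φ D.u' := rfl
  rw [this, HD.D1, Matrix.transpose_sub, Matrix.transpose_vecMulVec, Matrix.transpose_vecMulVec]
  abel

theorem transpose_sq {T : Matrix n n P} (hT : T * T = g • (1 : Matrix n n P)) :
    Tᵀ * Tᵀ = g • (1 : Matrix n n P) := by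
  rw [← Matrix.transpose_mul, hT, Matrix.transpose_smul, Matrix.transpose_one]

end Trans

section Coef
variable {Ω : Type u} [Field Ω]

theorem ly_py : ly (py Ω) = 1 := by simp [ly, cf, py]
theorem lx_px : lx (px Ω) = 1 := by simp [lx, cf, px]
theorem lx_py : lx (py Ω) = 0 := by simp [lx, cf, py]
theorem ly_px : ly (px Ω) = 0 := by simp [ly, cf, px, PowerSeries.coeff_C]

theorem ev0_C (p : PowerSeries Ω) : ev0 (PowerSeries.C p : P2 Ω) = PowerSeries.constantCoeff p := by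
  simp [ev0]

theorem cf_cc (m : ℕ) (p : P2 Ω) : cf m 0 p = PowerSeries.coeff m (cc Ω p) := by
  simp [cf]

theorem ev0_eq (p : P2 Ω) : ev0 p = PowerSeries.constantCoeff (cc Ω p) := rfl

theorem cf_quart (i j : ℕ) (a : Fin 5 → Ω) :
    cf i j (quart a) = ∑ k : Fin 5, if i = 4 - (k : ℕ) ∧ j = (k : ℕ) then a k else 0 := by
  rw [quart, cf_sum]
  refine Finset.sum_congr rfl fun k _ => ?_
  have h1 : cst (a k) * px Ω ^ (4 - (k : ℕ)) * py Ω ^ (k : ℕ) =
      px Ω ^ (4 - (k : ℕ)) * (py Ω ^ (k : ℕ) * cst (a k)) := by ring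
  rw [h1, cf_px_pow_mul, cf_py_pow_mul, cf_cst]
  by_cases hi : i = 4 - (k : ℕ)
  · by_cases hj : j = (k : ℕ)
    · rw [if_pos (by omega), if_pos (by omega), if_pos ⟨by omega, by omega⟩, if_pos ⟨hi, hj⟩]
    · rw [if_pos (by omega), if_neg (show ¬(i = 4 - (k : ℕ) ∧ j = (k : ℕ)) from fun h => hj h.2)]
      split_ifs with h2 h3
      · exact absurd (by omega) hj
      · rfl
      · rfl
  · rw [if_neg (show ¬(i = 4 - (k : ℕ) ∧ j = (k : ℕ)) from fun h => hi h.1)]
    split_ifs with h2 h3 h4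
    · exact absurd (by omega) hi
    · rfl
    · rfl
    · rfl

/-- the matrix of coefficients of `x^i y^j` -/
noncomputable def cm {n m : Type} (i j : ℕ) (T : Matrix n m (P2 Ω)) : Matrix n m Ω := T.map (cf i j)

theorem cm_mul {n m l : Type} [Fintype m] (i j : ℕ) (A : Matrix n m (P2 Ω))
    (B : Matrix m l (P2 Ω)) : cm i j (A * B) =
    ∑ b ∈ Finset.HasAntidiagonal.antidiagonal j, ∑ a ∈ Finset.HasAntidiagonal.antidiagonal i,
      cm a.1 b.1 A * cm a.2 b.2 B := by
  refine Matrix.ext fun p q => ?_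
  simp only [cm, Matrix.map_apply, Matrix.mul_apply, cf_sum, cf_mul, Matrix.sum_apply]
  rw [Finset.sum_comm]
  refine Finset.sum_congr rfl fun b _ => ?_
  rw [Finset.sum_comm]

theorem cm_quart {n : Type} [DecidableEq n] (i j : ℕ) (a : Fin 5 → Ω) :
    cm i j (quart a • (1 : Matrix n n (P2 Ω))) = cf i j (quart a) • (1 : Matrix n n Ω) := by
  refine Matrix.ext fun p q => ?_
  simp only [cm, Matrix.map_apply, Matrix.smul_apply, smul_eq_mul]
  by_cases h : p = q
  · subst h; simp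
  · simp [h, cf_zero]

/-- coefficient of `y^2` in `T^2` -/
theorem YY {n : Type} [Fintype n] [DecidableEq n] {a : Fin 5 → Ω} {T : Matrix n n (P2 Ω)}
    (hT : T * T = quart a • (1 : Matrix n n (P2 Ω))) (h0 : T.map ev0 = 0) :
    T.map ly * T.map ly = 0 := by
  have h1 := congrArg (cm 0 2) hT
  rw [cm_mul, cm_quart, cf_quart] at h1
  have h2 : cm 0 0 T = 0 := by
    rw [← h0]
    refine Matrix.ext fun p q => ?_
    simp [cm, ev0_eq_cf]
  simp only [Finset.Nat.antidiagonal_succ, Finset.Nat.antidiagonal_zero] at h1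
  simp [h2, Fin.sum_univ_five] at h1
  exact h1

/-- the values at the origin of `u'` for a datum along `y = 0` -/
theorem ev0_u' {n : Type} [Fintype n] [DecidableEq n] {g : P2 Ω} {T : Matrix n n (P2 Ω)}
    (h0 : T.map ev0 = 0) (D : HD g T) (hl : D.l = py Ω) (c : P2 Ω) (ha : D.a = px Ω ^ 2 * c)
    (i : n) : ev0 (D.u' i) = (T.map ly *ᵥ (fun j => ev0 (D.u j))) i := by
  have h1 := congrArg ly (congrFun D.hu i)
  simp only [Pi.add_apply, Pi.smul_apply, smul_eq_mul] at h1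
  rw [ly_add, hl, ly_mul (py Ω), ly_py, ev0_py, ha] at h1
  have h2 : ly (px Ω ^ 2 * c * D.u i) = 0 := by
    rw [mul_assoc, ly, cf_px_pow_mul]; simp
  rw [h2, one_mul, zero_mul, add_zero, zero_add] at h1
  rw [← h1]
  simp only [Matrix.mulVec, dotProduct, ly_sum, ly_mul, Matrix.map_apply]
  refine Finset.sum_congr rfl fun j _ => ?_
  have h3 : ev0 (T i j) = 0 := congrFun (congrFun h0 i) j
  rw [h3, zero_mul, add_zero]

theorem ev0_φ' {n : Type} [Fintype n] [DecidableEq n] {g : P2 Ω} {T : Matrix n n (P2 Ω)}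
    (h0 : T.map ev0 = 0) (D : HD g T) (hl : D.l = py Ω) (c : P2 Ω) (ha : D.a = px Ω ^ 2 * c)
    (i : n) : ev0 (D.φ' i) = ((fun j => ev0 (D.φ j)) ᵥ* T.map ly) i := by
  have h1 := congrArg ly (congrFun D.hφ i)
  simp only [Pi.add_apply, Pi.smul_apply, smul_eq_mul] at h1
  rw [ly_add, hl, ly_mul (py Ω), ly_py, ev0_py, ha] at h1
  have h2 : ly (px Ω ^ 2 * c * D.φ i) = 0 := by
    rw [mul_assoc, ly, cf_px_pow_mul]; simp
  rw [h2, one_mul, zero_mul, add_zero, zero_add] at h1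
  rw [← h1]
  simp only [Matrix.vecMul, dotProduct, ly_sum, ly_mul, Matrix.map_apply]
  refine Finset.sum_congr rfl fun j _ => ?_
  have h3 : ev0 (T j i) = 0 := congrFun (congrFun h0 j) i
  rw [h3, mul_zero, zero_add]

/-- a datum along `y = 0` which is not good kills `u(0)` by `Y` -/
theorem bad_datum {n : Type} [Fintype n] [DecidableEq n] {a : Fin 5 → Ω} {T : Matrix n n (P2 Ω)}
    (hT : T * T = quart a • (1 : Matrix n n (P2 Ω))) (h0 : T.map ev0 = 0)
    (D : HD (quart a) T) (hl : D.l = py Ω) (c : P2 Ω) (ha : D.a = px Ω ^ 2 * c)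
    (hφ : ∃ i, ev0 (D.φ i) ≠ 0) (hD : D.D1.map ev0 = 0) :
    T.map ly *ᵥ (fun j => ev0 (D.u j)) = 0 := by
  obtain ⟨j, hj⟩ := hφ
  set u0 : n → Ω := fun j => ev0 (D.u j) with hu0
  set Y := T.map ly with hY
  have h1 : ∀ i, (Y *ᵥ u0) i * ev0 (D.φ j) = u0 i * ev0 (D.φ' j) := by
    intro i
    have h2 := congrFun (congrFun hD i) j
    simp only [HD.D1, Matrix.map_apply, Matrix.sub_apply, Matrix.vecMulVec_apply, map_sub, map_mul,
      Matrix.zero_apply] at h2
    rw [ev0_u' h0 D hl c ha] at h2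
    exact sub_eq_zero.1 h2
  set κ : Ω := ev0 (D.φ' j) / ev0 (D.φ j) with hκ
  have h2 : Y *ᵥ u0 = κ • u0 := by
    funext i
    have := h1 i
    rw [Pi.smul_apply, smul_eq_mul, hκ]
    field_simp
    rw [this, mul_comm]
  have h3 : κ • κ • u0 = 0 := by
    rw [← h2, ← Matrix.mulVec_smul, ← h2, Matrix.mulVec_mulVec, hY, YY hT h0, Matrix.zero_mulVec]
  rw [h2]
  by_cases hk : κ = 0
  · rw [hk, zero_smul]
  · have h4 : κ • u0 = 0 := (smul_eq_zero.1 h3).resolve_left hk
    exact h4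

end Coef

end Pool.Agent.H79.HS
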